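import Pool.Agent.H67.CC.Low

/-!
# Cunningham chains in Cramér's model with limited independence

In Cramér's random model every integer `n ≥ 3` belongs to the random set `A` with probability
`1 / log n`, independently. In the model with independence of order `κ` only those sets `T` of
events have to be independent whose number of elements is at most `κ n` for all `n ∈ T`.

(1) If `κ n ≥ 2 k` for large `n`, then in EVERY such model almost surely all systems `L` of at most
    `k` linear forms `a n + b`, `a ≥ 1`, satisfy `#{n ≤ x : a n + b ∈ A for all forms} ~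
    x / (log x) ^ |L|`; the Cunningham chains of length `k` are the case `2 ^ i n + 2 ^ i - 1`,
    `i < k`.
(2) For every `k ≥ 1` there is a model with independence of order `2 k - 1` in which almost surely
    for every system of `k` linear forms only finitely many `n` have all values in `A`. So almost
    surely it has only finitely many Cunningham chains of length `k`, of either kind.
(3) For nondecreasing `κ` the following are equivalent: `κ n ≥ 2 k` for large `n`; in every model
    almost surely there are infinitely many Cunningham chains of length `k`; their number up to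
    `x` is asymptotic to `x / (log x) ^ k`; the formula of (1) for all systems of at most `k` forms.
(4) For nondecreasing `κ` the following are equivalent: `κ n` tends to infinity; in every model
    almost surely there are Cunningham chains of every length; infinitely many of every length;
    the formula of (1) for all systems.
-/

set_option autoImplicit false

namespace Pool.Agent.Results.MP_c77da8_nt.OrderOfIndependence

open MeasureTheory Filter Topology

/-- Cramér's model with independence of order `κ`: `E n` is the event that the integer `n` belongs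
to the random set. For every finite set `T` of integers `n ≥ 3` with at most `κ n` elements for
all `n ∈ T`, the probability that `T` is contained in the random set is `∏ 1 / log n`. -/
structure CramerModel {Ω : Type} [MeasurableSpace Ω] (P : Measure Ω) (κ : ℕ → ℕ)
    (E : ℕ → Set Ω) : Prop where
  meas : ∀ n, MeasurableSet (E n)
  indep : ∀ T : Finset ℕ, (∀ n ∈ T, 3 ≤ n ∧ T.card ≤ κ n) →
    P (⋂ n ∈ T, E n) = ENNReal.ofReal (∏ n ∈ T, 1 / Real.log n)

/-- in every model with independence of order `κ` almost surely the random set has property `Q` -/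
def AlwaysAS (κ : ℕ → ℕ) (Q : ∀ {Ω : Type}, (ℕ → Set Ω) → Ω → Prop) : Prop :=
  ∀ (Ω : Type) (_ : MeasurableSpace Ω) (P : Measure Ω) (_ : IsProbabilityMeasure P)
    (E : ℕ → Set Ω), CramerModel P κ E → ∀ᵐ ω ∂P, Q E ω

/-- the starting points of the Cunningham chains of the first kind of length `k` in the random set:
`n`, `2 n + 1`, ..., `2 ^ (k - 1) (n + 1) - 1` belong to it -/
def chains {Ω : Type} (E : ℕ → Set Ω) (ω : Ω) (k : ℕ) : Set ℕ :=
  {n | ∀ i < k, ω ∈ E (2 ^ i * (n + 1) - 1)}

/-- the integers `n` for which the value `a n + b` belongs to the random set for all pairs `(a, b)`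
in `L` (a negative value is replaced by `0`) -/
def hits {Ω : Type} (E : ℕ → Set Ω) (ω : Ω) (L : Finset (ℕ × ℤ)) : Set ℕ :=
  {n | ∀ f ∈ L, ω ∈ E ((f.1 : ℤ) * n + f.2).toNat}

/-- the set `s` has asymptotically `x / (log x) ^ r` elements up to `x` -/
def Law (s : Set ℕ) (r : ℕ) : Prop :=
  Tendsto (fun x : ℝ => (({n : ℕ | (n : ℝ) ≤ x ∧ n ∈ s}.ncard : ℕ) : ℝ) * Real.log x ^ r / x)
    atTop (𝓝 1)

/-- all systems of at most `k` linear forms `a n + b`, `a ≥ 1`, follow the law -/
def AllSystems {Ω : Type} (E : ℕ → Set Ω) (ω : Ω) (k : ℕ) : Prop :=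
  ∀ L : Finset (ℕ × ℤ), L.Nonempty → L.card ≤ k → (∀ f ∈ L, 1 ≤ f.1) → Law (hits E ω L) L.card

/-- the system of a chain -/
def chainSys (k : ℕ) : Finset (ℕ × ℤ) := (Finset.range k).image fun i => (2 ^ i, 2 ^ i - 1)

lemma chainSys_card (k : ℕ) : (chainSys k).card = k := by
  unfold chainSys
  rw [Finset.card_image_of_injective, Finset.card_range]
  intro i j h
  exact Nat.pow_right_injective le_rfl (Prod.mk.inj h).1

lemma chainSys_pos {k : ℕ} : ∀ f ∈ chainSys k, 1 ≤ f.1 := by
  intro f hf
  unfold chainSys at hf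
  rw [Finset.mem_image] at hf
  obtain ⟨i, _, rfl⟩ := hf
  exact Nat.one_le_two_pow

lemma hits_chainSys {Ω : Type} (E : ℕ → Set Ω) (ω : Ω) (k : ℕ) :
    hits E ω (chainSys k) = chains E ω k := by
  have h1 : ∀ n i : ℕ, (((2 ^ i : ℕ) : ℤ) * n + (2 ^ i - 1)).toNat = 2 ^ i * (n + 1) - 1 := by
    intro n i
    have h2 : 1 ≤ 2 ^ i * (n + 1) := Nat.mul_pos (Nat.two_pow_pos i) (Nat.succ_pos n)
    have h3 : ((2 ^ i : ℕ) : ℤ) * n + (2 ^ i - 1) = ((2 ^ i * (n + 1) - 1 : ℕ) : ℤ) := by
      push_cast [h2]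
      ring
    rw [h3, Int.toNat_natCast]
  ext n
  unfold hits chains chainSys
  simp only [Finset.mem_image, Finset.mem_range, Set.mem_ofPred_eq]
  constructor
  · intro h i hi
    have := h _ ⟨i, hi, rfl⟩
    rwa [h1] at this
  · rintro h f ⟨i, hi, rfl⟩
    rw [h1]
    exact h i hi

lemma Law.infinite {s : Set ℕ} {r : ℕ} (h : Law s r) : s.Infinite :=
  H67.CC.infinite_of_asymp (s := fun n => n ∈ s) h

lemma chains_anti {Ω : Type} (E : ℕ → Set Ω) (ω : Ω) {k l : ℕ} (h : k ≤ l) :
    chains E ω l ⊆ chains E ω k := fun _ hn i hi => hn i (lt_of_lt_of_le hi h)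

/-- if there are only finitely many chains of length `k`, some length does not occur -/
lemma bounded_of_finite {Ω : Type} (E : ℕ → Set Ω) (ω : Ω) {k : ℕ}
    (h : (chains E ω k).Finite) : ∃ l, ¬ (chains E ω l).Nonempty := by
  obtain ⟨B, hB⟩ := h.bddAbove
  refine ⟨k + (B + 1), ?_⟩
  rintro ⟨n, hn⟩
  have h1 : 2 ^ (B + 1) * (n + 1) - 1 ∈ chains E ω k := by
    intro i hi
    have h2 := hn (i + (B + 1)) (by omega)
    have h3 : 1 ≤ 2 ^ (B + 1) * (n + 1) := Nat.mul_pos (Nat.two_pow_pos _) (Nat.succ_pos n)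
    rw [Nat.sub_add_cancel h3, ← mul_assoc, ← pow_add]
    exact h2
  have h2 := hB h1
  have h3 : B + 1 < 2 ^ (B + 1) := Nat.lt_two_pow_self
  have h4 : 2 ^ (B + 1) * 1 ≤ 2 ^ (B + 1) * (n + 1) := Nat.mul_le_mul_left _ (by omega)
  omega

theorem result :
    (∀ (k : ℕ) (κ : ℕ → ℕ), (∀ᶠ n : ℕ in atTop, 2 * k ≤ κ n) →
      AlwaysAS κ fun E ω => AllSystems E ω k) ∧
    (∀ k : ℕ, 1 ≤ k → ∃ (Ω : Type) (_ : MeasurableSpace Ω) (P : Measure Ω)
      (_ : IsProbabilityMeasure P) (E : ℕ → Set Ω), CramerModel P (fun _ => 2 * k - 1) E ∧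
      ∀ᵐ ω ∂P, ∀ L : Finset (ℕ × ℤ), L.card = k → (∀ f ∈ L, 1 ≤ f.1) → (hits E ω L).Finite) ∧
    (∀ k : ℕ, 1 ≤ k → ∀ κ : ℕ → ℕ, Monotone κ → List.TFAE [
      ∀ᶠ n : ℕ in atTop, 2 * k ≤ κ n,
      AlwaysAS κ fun E ω => (chains E ω k).Infinite,
      AlwaysAS κ fun E ω => Law (chains E ω k) k,
      AlwaysAS κ fun E ω => AllSystems E ω k]) ∧
    (∀ κ : ℕ → ℕ, Monotone κ → List.TFAE [
      Tendsto κ atTop atTop,
      AlwaysAS κ fun E ω => ∀ k, (chains E ω k).Nonempty,
      AlwaysAS κ fun E ω => ∀ k, (chains E ω k).Infinite,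
      AlwaysAS κ fun E ω => ∀ k, AllSystems E ω k]) := by
  have h1 : ∀ (k : ℕ) (κ : ℕ → ℕ), (∀ᶠ n : ℕ in atTop, 2 * k ≤ κ n) →
      AlwaysAS κ fun E ω => AllSystems E ω k := by
    intro k κ hκ Ω mΩ P hP E hM
    exact H67.CC.systems_asymp ⟨hM.meas, hM.indep⟩ hκ
  have h2 : ∀ k : ℕ, 1 ≤ k → ∃ (Ω : Type) (_ : MeasurableSpace Ω) (P : Measure Ω)
      (_ : IsProbabilityMeasure P) (E : ℕ → Set Ω), CramerModel P (fun _ => 2 * k - 1) E ∧
      ∀ᵐ ω ∂P, ∀ L : Finset (ℕ × ℤ), L.card = k → (∀ f ∈ L, 1 ≤ f.1) →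
        (hits E ω L).Finite := by
    intro k hk
    obtain ⟨Ω, mΩ, P, hP, E, hM, hE⟩ := H67.CC.no_systems (k := k) hk
    exact ⟨Ω, mΩ, P, hP, E, ⟨hM.meas, hM.indep⟩, hE⟩
  -- a model without chains, for nondecreasing `κ`
  have h3 : ∀ (k : ℕ) (κ : ℕ → ℕ), 1 ≤ k → Monotone κ → ¬ (∀ᶠ n : ℕ in atTop, 2 * k ≤ κ n) →
      ∀ Q : ∀ {Ω : Type}, (ℕ → Set Ω) → Ω → Prop, AlwaysAS κ Q →
      (∀ {Ω : Type} (E : ℕ → Set Ω) (ω : Ω), Q E ω → ¬ (chains E ω k).Finite) → False := by
    intro k κ hk hmono hc Q hQ hQ2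
    have h4 : ∀ n, κ n ≤ 2 * k - 1 := by
      intro n
      by_contra h5
      apply hc
      filter_upwards [eventually_ge_atTop n] with n' hn'
      have := hmono hn'
      omega
    obtain ⟨Ω, mΩ, P, hP, E, hM, hE⟩ := h2 k hk
    have h5 := hQ Ω mΩ P hP E ⟨hM.meas, fun T hT => hM.indep T fun n hn =>
      ⟨(hT n hn).1, (hT n hn).2.trans (h4 n)⟩⟩
    have h6 : ∀ᵐ _ω ∂P, False := by
      filter_upwards [hE, h5] with ω h7 h8
      apply hQ2 E ω h8
      rw [← hits_chainSys]
      exact h7 _ (chainSys_card k) chainSys_pos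
    rw [ae_iff] at h6
    simp at h6
  refine ⟨h1, h2, fun k hk κ hmono => ?_, fun κ hmono => ?_⟩
  · tfae_have 1 → 4 := h1 k κ
    tfae_have 4 → 3 := by
      intro h Ω mΩ P hP E hM
      filter_upwards [h Ω mΩ P hP E hM] with ω hω
      have := hω (chainSys k) (by rw [← Finset.card_pos, chainSys_card]; exact hk)
        (chainSys_card k).le chainSys_pos
      rwa [hits_chainSys, chainSys_card] at this
    tfae_have 3 → 2 := by
      intro h Ω mΩ P hP E hM
      filter_upwards [h Ω mΩ P hP E hM] with ω hω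
      exact hω.infinite
    tfae_have 2 → 1 := by
      intro h
      by_contra hc
      exact h3 k κ hk hmono hc _ h fun E ω hω => hω
    tfae_finish
  · tfae_have 1 → 4 := by
      intro h Ω mΩ P hP E hM
      rw [ae_all_iff]
      intro k
      exact h1 k κ (h.eventually_ge_atTop (2 * k)) Ω mΩ P hP E hM
    tfae_have 4 → 3 := by
      intro h Ω mΩ P hP E hM
      filter_upwards [h Ω mΩ P hP E hM] with ω hω k
      have := hω (k + 1) (chainSys (k + 1))
        (by rw [← Finset.card_pos, chainSys_card]; exact Nat.succ_pos k)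
        (chainSys_card (k + 1)).le chainSys_pos
      rw [hits_chainSys] at this
      exact this.infinite.mono (chains_anti E ω (Nat.le_succ k))
    tfae_have 3 → 2 := by
      intro h Ω mΩ P hP E hM
      filter_upwards [h Ω mΩ P hP E hM] with ω hω k
      exact (hω k).nonempty
    tfae_have 2 → 1 := by
      intro h
      rw [tendsto_atTop]
      intro b
      by_contra hc
      refine h3 (b + 1) κ (Nat.succ_pos b) hmono (fun h4 => hc ?_) _ h fun E ω hω hfin => ?_
      · filter_upwards [h4] with n hn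
        omega
      · obtain ⟨l, hl⟩ := bounded_of_finite E ω hfin
        exact hl (hω l)
    tfae_finish

end Pool.Agent.Results.MP_c77da8_nt.OrderOfIndependence
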